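import Pool.Agent.Helper57K1.FS.Red

/-!
# Sylvester's functional: the volume of a random simplex
-/

set_option autoImplicit false

namespace Pool.Agent.Helper28K1.SY

open MeasureTheory Set Filter Topology
open scoped ENNReal NNReal
open Pool.Agent.Y513.LPM (E)
open Pool.Agent.Helper57K1.LM

variable {n : ℕ}

/-- Sylvester's functional: for a convex body `K` of `ℝ^n` the probability that one of `n + 2`
independent uniform points of `K` lies in the convex hull of the others. -/
noncomputable def sylv (K : Set (E n)) : ℝ :=
  ((n : ℝ) + 2) / volume.real K ^ (n + 2) *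
    ∫ x in Set.pi univ (fun _ : Fin (n + 1) => K), volume.real (convexHull ℝ (range x))

lemma vol_eq (x : Fin (n + 1) → E n) :
    volume.real (convexHull ℝ (range x)) =
      |LinearMap.det (smap x)| * volume.real (simplex n) := by
  rw [hull_simplex]
  have h : (fun y => x 0 + smap x y) '' simplex n =
      (fun y => x 0 + y) '' (smap x '' simplex n) := by
    rw [image_image]
  rw [h]
  unfold Measure.real
  rw [image_add_left, measure_preimage_add, Measure.addHaar_image_linearMap, ENNReal.toReal_mul,
    ENNReal.toReal_ofReal (abs_nonneg _)]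

lemma det_smap (s : Fin (n + 1) → E n) :
    LinearMap.det (smap s) = Matrix.det (Matrix.of fun i j => s j.succ i - s 0 i) := by
  rw [← LinearMap.det_toMatrix (EuclideanSpace.basisFun (Fin n) ℝ).toBasis]
  congr 1
  ext i j
  rw [LinearMap.toMatrix_apply]
  simp [smap_apply]

lemma vol_cont : Continuous fun x : Fin (n + 1) → E n =>
    volume.real (convexHull ℝ (range x)) := by
  simp_rw [vol_eq, det_smap]
  refine Continuous.mul ?_ continuous_const
  refine continuous_abs.comp ?_
  refine Continuous.matrix_det ?_
  refine continuous_matrix fun i j => ?_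
  simp only [Matrix.of_apply]
  fun_prop

/-- moving the points on parallel lines, the determinant is an affine function of the time -/
lemma det_affine (x : Fin (n + 1) → E n) (b : Fin (n + 1) → ℝ) {v : E n} (hv : v ≠ 0) :
    ∃ p q : ℝ, ∀ t : ℝ,
      LinearMap.det (smap (fun i => x i + (t * b i) • v)) = p + t * q := by
  classical
  have hli : LinearIndepOn ℝ id ({v} : Set (E n)) := by
    simpa using hv
  set B := Module.Basis.extend hli with hB
  have : Fintype (hli.extend (subset_univ ({v} : Set (E n)))) :=
    FiniteDimensional.fintypeBasisIndex B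
  set i₀ : hli.extend (subset_univ ({v} : Set (E n))) :=
    ⟨v, Module.Basis.subset_extend hli rfl⟩ with hi₀
  have hBv : B i₀ = v := Module.Basis.extend_apply_self hli i₀
  have hr : B.repr v = Finsupp.single i₀ 1 := by
    have := B.repr_self i₀
    rwa [hBv] at this
  set c : hli.extend (subset_univ ({v} : Set (E n))) → ℝ :=
    fun j => ∑ k : Fin n, (B j) k * (b k.succ - b 0) with hc
  set M := LinearMap.toMatrix B B (smap x) with hM
  have key : ∀ t : ℝ, LinearMap.toMatrix B B (smap (fun i => x i + (t * b i) • v)) =
      M.updateRow i₀ (M i₀ + t • c) := by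
    intro t
    have e1 : ∀ j, smap (fun i => x i + (t * b i) • v) (B j) =
        smap x (B j) + (t * c j) • v := by
      intro j
      simp only [smap_apply, hc]
      rw [Finset.mul_sum, Finset.sum_smul, ← Finset.sum_add_distrib]
      refine Finset.sum_congr rfl fun k _ => ?_
      module
    ext i j
    rw [LinearMap.toMatrix_apply, e1, map_add, map_smul, hr]
    by_cases hi : i = i₀
    · rw [hi, Matrix.updateRow_self]
      simp only [Finsupp.add_apply, Finsupp.smul_apply, Pi.add_apply, Pi.smul_apply,
        smul_eq_mul, Finsupp.single_eq_same, mul_one, hM, LinearMap.toMatrix_apply]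
    · rw [Matrix.updateRow_ne hi]
      simp only [Finsupp.add_apply, Finsupp.smul_apply, smul_eq_mul, hM,
        LinearMap.toMatrix_apply]
      rw [Finsupp.single_apply, if_neg (Ne.symm hi), mul_zero, add_zero]
  refine ⟨M.det, (M.updateRow i₀ c).det, fun t => ?_⟩
  rw [← LinearMap.det_toMatrix B, key, Matrix.det_updateRow_add, Matrix.det_updateRow_smul,
    Matrix.updateRow_eq_self]

/-- the volume of the simplex is a convex function of the time -/
lemma vol_move (x : Fin (n + 1) → E n) (b : Fin (n + 1) → ℝ) {v : E n} (hv : v ≠ 0)
    {t₀ t₁ a c : ℝ} (ha : 0 ≤ a) (hc : 0 ≤ c) (hac : a + c = 1) (h0 : a * t₀ + c * t₁ = 0) :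
    volume.real (convexHull ℝ (range x)) ≤
      a * volume.real (convexHull ℝ (range fun i => x i + (t₀ * b i) • v)) +
      c * volume.real (convexHull ℝ (range fun i => x i + (t₁ * b i) • v)) := by
  obtain ⟨p, q, h⟩ := det_affine x b hv
  have hx : LinearMap.det (smap x) = p := by
    have := h 0
    simpa using this
  rw [vol_eq, vol_eq, vol_eq, h, h, hx]
  have hs : 0 ≤ volume.real (simplex n) := measureReal_nonneg
  have h1 : |p| ≤ a * |p + t₀ * q| + c * |p + t₁ * q| := by
    calc |p| = |a * (p + t₀ * q) + c * (p + t₁ * q)| := by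
          congr 1
          linear_combination (-p) * hac - q * h0
      _ ≤ |a * (p + t₀ * q)| + |c * (p + t₁ * q)| := abs_add_le _ _
      _ = a * |p + t₀ * q| + c * |p + t₁ * q| := by
          rw [abs_mul, abs_mul, abs_of_nonneg ha, abs_of_nonneg hc]
  nlinarith

end Pool.Agent.Helper28K1.SY
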