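import Pool.Agent.Helper28K1.SY.A

/-!
# Sylvester's functional: chord preserving shears and affine maps
-/

set_option autoImplicit false

namespace Pool.Agent.Helper28K1.SY

open MeasureTheory Set Filter Topology
open scoped ENNReal NNReal
open Pool.Agent.Y513.LPM (E)
open Pool.Agent.Helper57K1.LM

variable {n : ℕ}

/-- the integral in Sylvester's functional -/
noncomputable def sInt (K : Set (E n)) : ℝ :=
  ∫ x in Set.pi univ (fun _ : Fin (n + 1) => K), volume.real (convexHull ℝ (range x))

lemma sylv_eq (K : Set (E n)) :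
    sylv K = ((n : ℝ) + 2) / volume.real K ^ (n + 2) * sInt K := rfl

lemma sInt_nonneg (K : Set (E n)) : 0 ≤ sInt K :=
  integral_nonneg fun _ => measureReal_nonneg

lemma sylv_nonneg (K : Set (E n)) : 0 ≤ sylv K := by
  rw [sylv_eq]
  have := sInt_nonneg K
  positivity

/-- change of variables by a homeomorphism preserving the measure -/
lemma sInt_image {f : E n ≃ₜ E n} (hf : MeasurePreserving f (volume : Measure (E n)) volume)
    (K : Set (E n)) :
    sInt (f '' K) = ∫ x in Set.pi univ (fun _ : Fin (n + 1) => K),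
      volume.real (convexHull ℝ (range fun i => f (x i))) := by
  have h1 : MeasurePreserving (fun (x : Fin (n + 1) → E n) i => f (x i)) volume volume :=
    volume_preserving_pi fun _ => hf
  have h2 : MeasurableEmbedding (fun (x : Fin (n + 1) → E n) i => f (x i)) :=
    (Homeomorph.piCongrRight fun _ : Fin (n + 1) => f).measurableEmbedding
  have h3 : (fun (x : Fin (n + 1) → E n) i => f (x i)) ⁻¹'
      (Set.pi univ (fun _ : Fin (n + 1) => f '' K)) = Set.pi univ (fun _ : Fin (n + 1) => K) := by
    ext x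
    simp [Set.mem_pi, f.injective.mem_set_image]
  unfold sInt
  rw [← h3, h1.setIntegral_preimage_emb h2 (fun y => volume.real (convexHull ℝ (range y)))]

lemma vol_image {f : E n ≃ₜ E n} (hf : MeasurePreserving f (volume : Measure (E n)) volume)
    (K : Set (E n)) : volume.real (f '' K) = volume.real K := by
  have h := hf.measure_preimage_emb f.measurableEmbedding (f '' K)
  rw [preimage_image_eq _ f.injective] at h
  unfold Measure.real
  rw [← h]

lemma int_on {K : Set (E n)} (hK : IsCompact K) {g : (Fin (n + 1) → E n) → ℝ}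
    (hg : Continuous g) : IntegrableOn g (Set.pi univ (fun _ : Fin (n + 1) => K)) :=
  hg.continuousOn.integrableOn_compact (isCompact_univ_pi fun _ => hK)

/-- **moving chords** -/
theorem move {K : Set (E n)} (hK : IsCompact K) {β : E n → ℝ} (hβ : Continuous β) {v : E n}
    (hv : v ≠ 0) (hinv : ∀ (x : E n) (s : ℝ), β (x + s • v) = β x) {t₀ t₁ : ℝ}
    (h0 : t₀ < 0) (h1 : 0 < t₁) {M : ℝ}
    (hm₀ : sylv (shear β v t₀ '' K) ≤ M) (hm₁ : sylv (shear β v t₁ '' K) ≤ M) :
    sylv K ≤ M := by
  have hI : ∀ t : ℝ, sInt (shear β v t '' K) =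
      ∫ x in Set.pi univ (fun _ : Fin (n + 1) => K),
        volume.real (convexHull ℝ (range fun i => x i + (t * β (x i)) • v)) := fun t =>
    sInt_image (f := shearH hβ hinv t) (shear_mp hβ hv hinv t) K
  have hV : ∀ t : ℝ, volume.real (shear β v t '' K) = volume.real K := fun t =>
    vol_image (f := shearH hβ hinv t) (shear_mp hβ hv hinv t) K
  have hd : 0 < t₁ - t₀ := by linarith
  set a : ℝ := t₁ / (t₁ - t₀) with ha
  set c : ℝ := -t₀ / (t₁ - t₀) with hc
  have ha0 : 0 ≤ a := div_nonneg h1.le hd.le
  have hc0 : 0 ≤ c := div_nonneg (by linarith) hd.le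
  have hac : a + c = 1 := by rw [ha, hc]; field_simp; ring
  have hat : a * t₀ + c * t₁ = 0 := by rw [ha, hc]; field_simp; ring
  have hcont : ∀ t : ℝ, Continuous fun x : Fin (n + 1) → E n =>
      volume.real (convexHull ℝ (range fun i => x i + (t * β (x i)) • v)) := by
    intro t
    refine vol_cont.comp (g := fun y : Fin (n + 1) → E n => volume.real (convexHull ℝ (range y)))
      (f := fun (x : Fin (n + 1) → E n) i => x i + (t * β (x i)) • v) ?_
    fun_prop
  have key : sInt K ≤ a * sInt (shear β v t₀ '' K) + c * sInt (shear β v t₁ '' K) := by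
    rw [hI, hI, ← integral_const_mul, ← integral_const_mul, ← integral_add
      ((int_on hK (hcont t₀)).const_mul a) ((int_on hK (hcont t₁)).const_mul c)]
    refine integral_mono (int_on hK vol_cont) (((int_on hK (hcont t₀)).const_mul a).add
      ((int_on hK (hcont t₁)).const_mul c)) fun x => ?_
    exact vol_move x (fun i => β (x i)) hv ha0 hc0 hac hat
  rw [sylv_eq, hV] at hm₀ hm₁
  rw [sylv_eq]
  set C : ℝ := ((n : ℝ) + 2) / volume.real K ^ (n + 2) with hC
  have hC0 : 0 ≤ C := by
    rw [hC]
    have : 0 ≤ volume.real K := measureReal_nonneg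
    positivity
  calc C * sInt K ≤ C * (a * sInt (shear β v t₀ '' K) + c * sInt (shear β v t₁ '' K)) :=
        mul_le_mul_of_nonneg_left key hC0
    _ = a * (C * sInt (shear β v t₀ '' K)) + c * (C * sInt (shear β v t₁ '' K)) := by ring
    _ ≤ a * M + c * M := add_le_add (mul_le_mul_of_nonneg_left hm₀ ha0)
        (mul_le_mul_of_nonneg_left hm₁ hc0)
    _ = M := by rw [← add_mul, hac, one_mul]

/-! ### affine invariance -/

lemma sylv_translate (w : E n) (K : Set (E n)) : sylv ((fun x => w + x) '' K) = sylv K := by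
  have hf : MeasurePreserving (Homeomorph.addLeft w) (volume : Measure (E n)) volume :=
    measurePreserving_add_left volume w
  have e1 : (fun x => w + x) '' K = Homeomorph.addLeft w '' K := rfl
  rw [sylv_eq, sylv_eq, e1, vol_image hf, sInt_image hf]
  congr 1
  unfold sInt
  refine integral_congr_ae (Eventually.of_forall fun x => ?_)
  have e2 : (range fun i => Homeomorph.addLeft w (x i)) = (fun y => w + y) '' range x := by
    rw [← range_comp]; rfl
  have e3 : convexHull ℝ ((fun y => w + y) '' range x) =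
      (fun y => w + y) '' convexHull ℝ (range x) := convexHull_vadd (𝕜 := ℝ) w (range x)
  dsimp only
  rw [e2, e3]
  unfold Measure.real
  rw [image_add_left, measure_preimage_add]

lemma vol_linear (A : E n ≃ₗ[ℝ] E n) (K : Set (E n)) :
    volume.real (A '' K) = |LinearMap.det (A : E n →ₗ[ℝ] E n)| * volume.real K := by
  unfold Measure.real
  have h := Measure.addHaar_image_linearMap (volume : Measure (E n)) (A : E n →ₗ[ℝ] E n) K
  have e : (A : E n →ₗ[ℝ] E n) '' K = A '' K := rfl
  rw [← e, h, ENNReal.toReal_mul, ENNReal.toReal_ofReal (abs_nonneg _)]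

lemma sInt_linear (A : E n ≃ₗ[ℝ] E n) (K : Set (E n)) :
    sInt (A '' K) = |LinearMap.det (A : E n →ₗ[ℝ] E n)| ^ (n + 2) * sInt K := by
  set D : ℝ := |LinearMap.det (A : E n →ₗ[ℝ] E n)| with hD
  have hdet : LinearMap.det (A : E n →ₗ[ℝ] E n) ≠ 0 := by
    rw [← LinearEquiv.coe_det]
    exact Units.ne_zero _
  have hD0 : 0 < D := abs_pos.2 hdet
  set L : (Fin (n + 1) → E n) →ₗ[ℝ] (Fin (n + 1) → E n) :=
    LinearMap.pi (fun i => (A : E n →ₗ[ℝ] E n).comp (LinearMap.proj i)) with hL
  have hLx : ∀ x, L x = fun i => A (x i) := fun x => rfl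
  have hLdet : LinearMap.det L = LinearMap.det (A : E n →ₗ[ℝ] E n) ^ (n + 1) := by
    rw [hL, LinearMap.det_pi]
    simp
  have hL0 : LinearMap.det L ≠ 0 := by rw [hLdet]; exact pow_ne_zero _ hdet
  have hmap := Measure.map_linearMap_addHaar_eq_smul_addHaar
    (volume : Measure (Fin (n + 1) → E n)) hL0
  set f : E n ≃ₜ E n := A.toContinuousLinearEquiv.toHomeomorph with hf
  have h2 : MeasurableEmbedding L :=
    (Homeomorph.piCongrRight fun _ : Fin (n + 1) => f).measurableEmbedding
  have h3 : L ⁻¹' (Set.pi univ (fun _ : Fin (n + 1) => A '' K)) =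
      Set.pi univ (fun _ : Fin (n + 1) => K) := by
    ext x
    simp only [mem_preimage, Set.mem_pi, hLx, mem_univ, true_implies]
    exact forall_congr' fun i => A.injective.mem_set_image
  have h4 := h2.setIntegral_map (μ := volume) (fun y => volume.real (convexHull ℝ (range y)))
    (Set.pi univ (fun _ : Fin (n + 1) => A '' K))
  rw [h3, hmap, Measure.restrict_smul, integral_smul_measure, ENNReal.toReal_ofReal
    (abs_nonneg _), smul_eq_mul] at h4
  have h5 : ∀ x : Fin (n + 1) → E n, volume.real (convexHull ℝ (range (L x))) =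
      D * volume.real (convexHull ℝ (range x)) := by
    intro x
    have e1 : range (L x) = (A : E n →ₗ[ℝ] E n) '' range x := by
      rw [hLx, ← range_comp]; rfl
    rw [e1, ← LinearMap.image_convexHull]
    exact vol_linear A _
  simp_rw [h5] at h4
  rw [integral_const_mul] at h4
  have h6 : |(LinearMap.det L)⁻¹| = (D ^ (n + 1))⁻¹ := by
    rw [hLdet, abs_inv, abs_pow]
  rw [h6] at h4
  unfold sInt
  have h7 : (D ^ (n + 1)) ≠ 0 := (pow_pos hD0 _).ne'
  field_simp at h4
  rw [h4]
  ring

lemma sylv_linear (A : E n ≃ₗ[ℝ] E n) (K : Set (E n)) : sylv (A '' K) = sylv K := by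
  have hdet : LinearMap.det (A : E n →ₗ[ℝ] E n) ≠ 0 := by
    rw [← LinearEquiv.coe_det]
    exact Units.ne_zero _
  have hD0 : |LinearMap.det (A : E n →ₗ[ℝ] E n)| ≠ 0 := (abs_pos.2 hdet).ne'
  rw [sylv_eq, sylv_eq, vol_linear, sInt_linear, mul_pow]
  by_cases hV : volume.real K = 0
  · rw [hV, zero_pow (by omega)]
    simp
  · field_simp

end Pool.Agent.Helper28K1.SY
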