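import Pool.Agent.Helper28K1.SY.B
import Pool.Agent.Helper57K1.FS.K

/-!
# Sylvester's problem for iterated joins and free sums
-/

set_option autoImplicit false

namespace Pool.Agent.Helper28K1.SY

open MeasureTheory Set Filter Topology
open scoped ENNReal NNReal Pointwise
open Pool.Agent.Y513.LPM (E)
open Pool.Agent.Helper57K1.LM
open Pool.Agent.Helper57K1.FS
open Pool.Agent.Helper98.JN (lsp)

variable {n : ℕ}

/-- all simplices have the same value -/
theorem simplex_value {s : Fin (n + 1) → E n}
    (hi : (interior (convexHull ℝ (range s))).Nonempty) :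
    sylv (convexHull ℝ (range s)) = sylv (simplex n) := by
  have hsurj := smap_surj hi
  set A : E n ≃ₗ[ℝ] E n := LinearEquiv.ofBijective (smap s)
    ⟨(LinearMap.injective_iff_surjective).2 hsurj, hsurj⟩ with hA
  have h1 : convexHull ℝ (range s) = (fun x => s 0 + x) '' (A '' simplex n) := by
    rw [hull_simplex, image_image]
    rfl
  rw [h1, sylv_translate, sylv_linear]

/-- at most `n + 1` points -/
theorem few_value (V : Finset (E n)) (hcard : V.card ≤ n + 1)
    (hK : (interior (convexHull ℝ (V : Set (E n)))).Nonempty) :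
    sylv (convexHull ℝ (V : Set (E n))) = sylv (simplex n) := by
  obtain ⟨w, hw⟩ : ∃ w : Fin (n + 1) → E n, range w = (V : Set (E n)) := by
    have hne : V.Nonempty := by
      by_contra h
      rw [Finset.not_nonempty_iff_eq_empty] at h
      rw [h, Finset.coe_empty, convexHull_empty, interior_empty] at hK
      exact not_nonempty_empty hK
    obtain ⟨v₀, hv₀⟩ := hne
    have e := V.equivFin
    refine ⟨fun i => if h : (i : ℕ) < V.card then (e.symm ⟨i, h⟩ : V) else v₀, ?_⟩
    ext x
    constructor
    · rintro ⟨i, rfl⟩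
      dsimp only
      split_ifs with h
      · exact Subtype.coe_prop _
      · exact hv₀
    · intro hx
      refine ⟨⟨e ⟨x, hx⟩, lt_of_lt_of_le (Fin.is_lt _) hcard⟩, ?_⟩
      dsimp only
      rw [dif_pos (Fin.is_lt _)]
      simp
  rw [← hw] at hK ⊢
  exact simplex_value hK

/-- **reducible polytopes** -/
theorem red_le {F : Finset (E n)} (h : Red F) :
    (interior (convexHull ℝ (F : Set (E n)))).Nonempty →
      sylv (convexHull ℝ (F : Set (E n))) ≤ sylv (simplex n) := by
  induction h with
  | @base F h =>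
    intro hint
    refine (few_value F ?_ hint).le
    have h1 : Module.finrank ℝ (lsp (F : Set (E n))) ≤ Module.finrank ℝ (E n × ℝ) :=
      Submodule.finrank_le _
    have h2 : Module.finrank ℝ (E n × ℝ) = n + 1 := by simp
    omega
  | hull h _ ih => rwa [h] at ih
  | @move F F₀ F₁ β hβ a b ha hb hab hinv t₀ t₁ h0 h1 e₀ e₁ _ _ ih₀ ih₁ =>
    intro hint
    have hc : IsCompact (convexHull ℝ (F : Set (E n))) :=
      Pool.Agent.H73R3.compact_hull F.finite_toSet.isCompact
    have hI : ∀ t : ℝ, (interior (shear β (b - a) t '' convexHull ℝ (F : Set (E n)))).Nonempty := by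
      intro t
      have h2 : interior (shear β (b - a) t '' convexHull ℝ (F : Set (E n))) =
          shear β (b - a) t '' interior (convexHull ℝ (F : Set (E n))) :=
        ((shearH hβ hinv t).image_interior _).symm
      rw [h2]
      exact hint.image _
    refine move hc hβ hab hinv h0 h1 ?_ ?_
    · have h2 := hI t₀
      rw [e₀] at h2 ⊢
      exact ih₀ h2
    · have h2 := hI t₁
      rw [e₁] at h2 ⊢
      exact ih₁ h2

/-- approximation from inside by finite sets, up to a dilatation -/
lemma approx {S : Set (E n)} (hS : IsCompact S) (A : Finset (E n)) (hA : (A : Set (E n)) ⊆ S)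
    (hint : (interior (convexHull ℝ S)).Nonempty) {ε : ℝ} (hε0 : 0 < ε) (hε1 : ε < 1) :
    ∃ F : Finset (E n), A ⊆ F ∧ (F : Set (E n)) ⊆ S ∧
      (interior (convexHull ℝ (F : Set (E n)))).Nonempty ∧
      ∃ z : E n, (fun x => x - z) '' convexHull ℝ S ⊆
        (1 - ε)⁻¹ • ((fun x => x - z) '' convexHull ℝ (F : Set (E n))) := by
  classical
  set K : Set (E n) := convexHull ℝ S with hK
  have hKc : IsCompact K := Pool.Agent.H73R3.compact_hull hS
  obtain ⟨z, hz⟩ := hint
  set K' : Set (E n) := (fun x => x - z) '' K with hK'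
  have hK'c : IsCompact K' := hKc.image (by fun_prop)
  have hsub : ∀ X : Set (E n), (fun x => x - z) '' X = (fun x => -z + x) '' X := fun X =>
    image_congr fun x _ => by abel
  have h0 : (0 : E n) ∈ interior K' := (zero_mem_sub z K).2 hz
  obtain ⟨r, hr, hball⟩ := Metric.mem_nhds_iff.1 (mem_interior_iff_mem_nhds.1 h0)
  have hball' : Metric.closedBall (0 : E n) (r / 2) ⊆ K' :=
    (Metric.closedBall_subset_ball (by linarith)).trans hball
  have hη : 0 < ε * (r / 2) := by positivity
  obtain ⟨t, htL, htf, htc⟩ := hS.finite_cover_balls hη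
  set F : Finset (E n) := htf.toFinset ∪ A with hF
  have hFt : (F : Set (E n)) = t ∪ (A : Set (E n)) := by simp [hF]
  have hFS : (F : Set (E n)) ⊆ S := by rw [hFt]; exact union_subset htL hA
  set Q : Set (E n) := convexHull ℝ (F : Set (E n)) with hQ
  have hQc : IsCompact Q := Pool.Agent.H73R3.compact_hull F.finite_toSet.isCompact
  have hnear : ∀ x ∈ K, ∃ q ∈ Q, ‖x - q‖ ≤ ε * (r / 2) := by
    intro x hx
    have h : K ⊆ {x | ∃ q ∈ Q, ‖x - q‖ ≤ ε * (r / 2)} := by
      refine convexHull_min ?_ ?_
      · intro y hy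
        obtain ⟨s, hs, hys⟩ := mem_iUnion₂.1 (htc hy)
        refine ⟨s, subset_convexHull ℝ _ ?_, ?_⟩
        · rw [hFt]; exact Or.inl hs
        · rw [← dist_eq_norm]; exact (Metric.mem_ball.1 hys).le
      · rintro y ⟨q, hq, hyq⟩ y' ⟨q', hq', hyq'⟩ a b ha hb hab
        refine ⟨a • q + b • q', (convex_convexHull ℝ _) hq hq' ha hb hab, ?_⟩
        have h1 : a • y + b • y' - (a • q + b • q') = a • (y - q) + b • (y' - q') := by module
        rw [h1]
        refine (norm_add_le _ _).trans ?_
        rw [norm_smul, norm_smul, Real.norm_of_nonneg ha, Real.norm_of_nonneg hb]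
        calc a * ‖y - q‖ + b * ‖y' - q'‖ ≤ a * (ε * (r / 2)) + b * (ε * (r / 2)) := by gcongr
          _ = ε * (r / 2) := by rw [← add_mul, hab, one_mul]
    exact h hx
  set Q' : Set (E n) := (fun x => x - z) '' Q with hQ'
  have hQ'c : IsCompact Q' := hQc.image (by fun_prop)
  have hQ'v : Convex ℝ Q' := by
    rw [hQ', hsub]; exact (convex_convexHull ℝ _).translate (-z)
  have hnear' : ∀ x ∈ K', ∃ q ∈ Q', ‖x - q‖ ≤ ε * (r / 2) := by
    rintro _ ⟨x, hx, rfl⟩
    obtain ⟨q, hq, hxq⟩ := hnear x hx
    refine ⟨q - z, ⟨q, hq, rfl⟩, ?_⟩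
    have : x - z - (q - z) = x - q := by abel
    rw [this]; exact hxq
  have hcan := cancel hQ'v hQ'c.isClosed hK'c (by positivity) hball' hε0.le hε1.le le_rfl hnear'
  have hτ : (0 : ℝ) < 1 - ε := by linarith
  refine ⟨F, Finset.subset_union_right, hFS, ?_, z, ?_⟩
  · have hQ'i : (interior Q').Nonempty := by
      refine ⟨0, mem_interior_iff_mem_nhds.2 (Metric.mem_nhds_iff.2
        ⟨(1 - ε) * r, by positivity, fun y hy => ?_⟩)⟩
      have h3 : (1 - ε)⁻¹ • y ∈ K' := by
        apply hball
        rw [mem_ball_zero_iff] at hy ⊢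
        rw [norm_smul, norm_inv, Real.norm_of_nonneg hτ.le, inv_mul_lt_iff₀ hτ]
        exact hy
      have h4 := hcan _ h3
      rwa [smul_smul, mul_inv_cancel₀ hτ.ne', one_smul] at h4
    rw [hQ', interior_sub] at hQ'i
    exact hQ'i.of_image
  · intro x hx
    refine ⟨_, hcan x hx, ?_⟩
    change (1 - ε)⁻¹ • (1 - ε) • x = x
    rw [smul_smul, inv_mul_cancel₀ hτ.ne', one_smul]

/-- from all finite subsets containing a given one to the compact set -/
theorem compact_case {S : Set (E n)} (hS : IsCompact S) (A : Finset (E n))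
    (hA : (A : Set (E n)) ⊆ S) (hint : (interior (convexHull ℝ S)).Nonempty) {M : ℝ}
    (hM : 0 ≤ M)
    (base : ∀ F : Finset (E n), A ⊆ F → (F : Set (E n)) ⊆ S →
      (interior (convexHull ℝ (F : Set (E n)))).Nonempty →
      sylv (convexHull ℝ (F : Set (E n))) ≤ M) : sylv (convexHull ℝ S) ≤ M := by
  set K : Set (E n) := convexHull ℝ S with hK
  have hKc : IsCompact K := Pool.Agent.H73R3.compact_hull hS
  have hVK : 0 < volume.real K :=
    ENNReal.toReal_pos (((isOpen_interior.measure_pos volume hint).trans_le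
      (measure_mono interior_subset)).ne') hKc.measure_lt_top.ne
  have key : ∀ ε : ℝ, 0 < ε → ε < 1 → sylv K ≤ M * ((1 - ε)⁻¹ ^ n) ^ (n + 2) := by
    intro ε hε0 hε1
    have hτ : (0 : ℝ) < 1 - ε := by linarith
    obtain ⟨F, hAF, hFS, hFi, z, hz⟩ := approx hS A hA hint hε0 hε1
    have hb := base F hAF hFS hFi
    set Q : Set (E n) := convexHull ℝ (F : Set (E n)) with hQ
    have hQK : Q ⊆ K := convexHull_mono hFS
    have hQc : IsCompact Q := Pool.Agent.H73R3.compact_hull F.finite_toSet.isCompact
    have hVQ : 0 < volume.real Q :=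
      ENNReal.toReal_pos (((isOpen_interior.measure_pos volume hFi).trans_le
        (measure_mono interior_subset)).ne') hQc.measure_lt_top.ne
    set Am : E n ≃ₗ[ℝ] E n :=
      LinearEquiv.smulOfNeZero ℝ (E n) (1 - ε)⁻¹ (inv_ne_zero hτ.ne') with hAm
    have hsub : ∀ X : Set (E n), (fun x => x - z) '' X = (fun x => -z + x) '' X := fun X =>
      image_congr fun x _ => by abel
    set P : Set (E n) := Am '' ((fun x => -z + x) '' Q) with hP
    have hPP : P = (1 - ε)⁻¹ • ((fun x => -z + x) '' Q) := by
      rw [hP, ← image_smul]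
      rfl
    have hKP : (fun x => -z + x) '' K ⊆ P := by
      rw [hPP, ← hsub, ← hsub]
      exact hz
    have hPc : IsCompact P := (hQc.image (by fun_prop)).image
      (LinearMap.continuous_of_finiteDimensional (Am : E n →ₗ[ℝ] E n))
    have hvP : volume.real P = (1 - ε)⁻¹ ^ n * volume.real Q := by
      rw [hPP]
      unfold Measure.real
      rw [Measure.addHaar_smul, ENNReal.toReal_mul, abs_of_pos (by positivity),
        ENNReal.toReal_ofReal (by positivity), image_add_left, measure_preimage_add]
      simp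
    have hvPle : volume.real P ≤ (1 - ε)⁻¹ ^ n * volume.real K := by
      rw [hvP]
      exact mul_le_mul_of_nonneg_left (measureReal_mono hQK hKc.measure_lt_top.ne)
        (by positivity)
    have hvP0 : 0 < volume.real P := by rw [hvP]; positivity
    have h1 : sylv P ≤ M := by rw [hP, sylv_linear, sylv_translate]; exact hb
    have h2 : sInt ((fun x => -z + x) '' K) ≤ sInt P := by
      unfold sInt
      refine setIntegral_mono_set (int_on hPc vol_cont)
        (Eventually.of_forall fun x => measureReal_nonneg) (LE.le.eventuallyLE ?_)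
      exact Set.pi_mono fun _ _ => hKP
    have h3 : sInt P ≤ M * volume.real P ^ (n + 2) / ((n : ℝ) + 2) := by
      rw [sylv_eq] at h1
      have h4 : (0 : ℝ) < (n : ℝ) + 2 := by positivity
      have h5 : 0 < volume.real P ^ (n + 2) := by positivity
      rw [le_div_iff₀ h4]
      have h6 : ((n : ℝ) + 2) / volume.real P ^ (n + 2) * sInt P =
          (sInt P * ((n : ℝ) + 2)) / volume.real P ^ (n + 2) := by ring
      rw [h6, div_le_iff₀ h5] at h1
      exact h1
    rw [← sylv_translate (-z) K, sylv_eq]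
    have hvK : volume.real ((fun x => -z + x) '' K) = volume.real K := by
      unfold Measure.real
      rw [image_add_left, measure_preimage_add]
    rw [hvK]
    have h4 : (0 : ℝ) < (n : ℝ) + 2 := by positivity
    have h5 : 0 < volume.real K ^ (n + 2) := by positivity
    calc ((n : ℝ) + 2) / volume.real K ^ (n + 2) * sInt ((fun x => -z + x) '' K)
        ≤ ((n : ℝ) + 2) / volume.real K ^ (n + 2) *
          (M * volume.real P ^ (n + 2) / ((n : ℝ) + 2)) :=
          mul_le_mul_of_nonneg_left (h2.trans h3) (by positivity)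
      _ = M * (volume.real P ^ (n + 2) / volume.real K ^ (n + 2)) := by field_simp
      _ ≤ M * ((1 - ε)⁻¹ ^ n) ^ (n + 2) := by
          refine mul_le_mul_of_nonneg_left ?_ hM
          rw [div_le_iff₀ h5, ← mul_pow]
          exact pow_le_pow_left₀ hvP0.le hvPle _
  have hlim : Tendsto (fun ε : ℝ => M * ((1 - ε)⁻¹ ^ n) ^ (n + 2)) (𝓝[>] 0) (𝓝 M) := by
    have hc : ContinuousAt (fun ε : ℝ => M * ((1 - ε)⁻¹ ^ n) ^ (n + 2)) 0 := by
      refine continuousAt_const.mul (ContinuousAt.pow (ContinuousAt.pow ?_ n) _)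
      exact ContinuousAt.inv₀ (by fun_prop) (by norm_num)
    have h2 := hc.tendsto
    simp only [sub_zero, inv_one, one_pow, mul_one] at h2
    exact h2.mono_left nhdsWithin_le_nhds
  refine ge_of_tendsto hlim ?_
  have h1 : ∀ᶠ ε : ℝ in 𝓝[>] 0, ε ∈ Ioo (0 : ℝ) 1 := Ioo_mem_nhdsGT one_pos
  filter_upwards [h1] with ε hε
  exact key ε hε.1 hε.2

/-- **the theorem**, from the reduction of polytopes with few vertices and of polygons -/
theorem main (hF : RedFew n) (hPL : RedPlanar n) {d : ℕ} {S : Set (E n)}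
    (hS : JoinSum n d S) (hd : d ≤ n) (hK : (interior (convexHull ℝ S)).Nonempty) :
    sylv (convexHull ℝ S) ≤ sylv (simplex n) := by
  obtain ⟨hc, t, ht, hcore⟩ := joinSum_core hS
  refine compact_case hc t ht hK (sylv_nonneg _) fun F htF hFS hint => ?_
  have hb : JoinSum n d (F : Set (E n)) := hcore F htF hFS
  have hfr : Module.finrank ℝ (lsp (F : Set (E n))) = d + 1 := by
    have h1 := rank_le hb
    have h2 : lsp (F : Set (E n)) = ⊤ := span_top hint
    rw [h2] at h1 ⊢
    have h3 : Module.finrank ℝ (⊤ : Submodule ℝ (E n × ℝ)) = n + 1 := by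
      rw [finrank_top]; simp
    omega
  exact red_le (red_of_joinSum hF hPL hb _ rfl hfr) hint

end Pool.Agent.Helper28K1.SY
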