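import Pool.Agent.Helper28K1.SY.C

/-!
# Sylvester's problem for iterated joins and free sums: equality for polytopes
-/

set_option autoImplicit false

namespace Pool.Agent.Helper28K1.SY

open MeasureTheory Set Filter Topology
open scoped ENNReal NNReal Pointwise
open Pool.Agent.Y513.LPM (E)
open Pool.Agent.Helper57K1.LM
open Pool.Agent.Helper57K1.FS
open Pool.Agent.Helper98.JN (lsp)

variable {n : ℕ}

/-- equality in the moving lemma -/
theorem move_eq {K : Set (E n)} (hK : IsCompact K) (hKv : Convex ℝ K)
    (hi : (interior K).Nonempty) {β : E n → ℝ} (hβ : Continuous β) {v : E n}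
    (hv : v ≠ 0) (hinv : ∀ (x : E n) (s : ℝ), β (x + s • v) = β x) {t₀ t₁ : ℝ}
    (h0 : t₀ < 0) (h1 : 0 < t₁) {M : ℝ}
    (hm₀ : sylv (shear β v t₀ '' K) ≤ M) (hm₁ : sylv (shear β v t₁ '' K) ≤ M)
    (hM : sylv K = M) :
    sylv (shear β v t₀ '' K) = M ∧ ∀ x : Fin (n + 1) → E n, (∀ i, x i ∈ K) →
      volume.real (convexHull ℝ (range x)) = 0 →
      volume.real (convexHull ℝ (range fun i => x i + (t₀ * β (x i)) • v)) = 0 := by
  have hI : ∀ t : ℝ, sInt (shear β v t '' K) =
      ∫ x in Set.pi univ (fun _ : Fin (n + 1) => K),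
        volume.real (convexHull ℝ (range fun i => x i + (t * β (x i)) • v)) := fun t =>
    sInt_image (f := shearH hβ hinv t) (shear_mp hβ hv hinv t) K
  have hV : ∀ t : ℝ, volume.real (shear β v t '' K) = volume.real K := fun t =>
    vol_image (f := shearH hβ hinv t) (shear_mp hβ hv hinv t) K
  have hd : 0 < t₁ - t₀ := by linarith
  set a : ℝ := t₁ / (t₁ - t₀) with ha
  set c : ℝ := -t₀ / (t₁ - t₀) with hc
  have ha0 : 0 < a := div_pos h1 hd
  have hc0 : 0 < c := div_pos (by linarith) hd
  have hac : a + c = 1 := by rw [ha, hc]; field_simp; ring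
  have hat : a * t₀ + c * t₁ = 0 := by rw [ha, hc]; field_simp; ring
  have hcont : ∀ t : ℝ, Continuous fun x : Fin (n + 1) → E n =>
      volume.real (convexHull ℝ (range fun i => x i + (t * β (x i)) • v)) := by
    intro t
    refine vol_cont.comp (g := fun y : Fin (n + 1) → E n => volume.real (convexHull ℝ (range y)))
      (f := fun (x : Fin (n + 1) → E n) i => x i + (t * β (x i)) • v) ?_
    fun_prop
  have hi₀ := (int_on hK (hcont t₀)).const_mul a
  have hi₁ := (int_on hK (hcont t₁)).const_mul c
  have hi2 := int_on hK (vol_cont (n := n))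
  -- the nonnegative function
  set h : (Fin (n + 1) → E n) → ℝ := fun x =>
    a * volume.real (convexHull ℝ (range fun i => x i + (t₀ * β (x i)) • v)) +
    c * volume.real (convexHull ℝ (range fun i => x i + (t₁ * β (x i)) • v)) -
      volume.real (convexHull ℝ (range x)) with hh
  have hh0 : ∀ x, 0 ≤ h x := fun x =>
    sub_nonneg.2 (vol_move x (fun i => β (x i)) hv ha0.le hc0.le hac hat)
  have hhc : Continuous h :=
    (((hcont t₀).const_mul a).add ((hcont t₁).const_mul c)).sub vol_cont
  have hint : ∫ x in Set.pi univ (fun _ : Fin (n + 1) => K), h x =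
      a * sInt (shear β v t₀ '' K) + c * sInt (shear β v t₁ '' K) - sInt K := by
    rw [hI, hI, ← integral_const_mul, ← integral_const_mul]
    exact (integral_sub (hi₀.add hi₁) hi2).trans
      (congrArg (· - sInt K) (integral_add hi₀ hi₁))
  have hVK : 0 < volume.real K :=
    ENNReal.toReal_pos (((isOpen_interior.measure_pos volume hi).trans_le
      (measure_mono interior_subset)).ne') hK.measure_lt_top.ne
  rw [sylv_eq, hV] at hm₀ hm₁
  rw [sylv_eq] at hM
  rw [sylv_eq, hV]
  set C : ℝ := ((n : ℝ) + 2) / volume.real K ^ (n + 2) with hC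
  have hC0 : 0 < C := by rw [hC]; positivity
  have hint0 : 0 ≤ ∫ x in Set.pi univ (fun _ : Fin (n + 1) => K), h x :=
    integral_nonneg hh0
  have e1 : C * (a * sInt (shear β v t₀ '' K) + c * sInt (shear β v t₁ '' K)) =
      a * (C * sInt (shear β v t₀ '' K)) + c * (C * sInt (shear β v t₁ '' K)) := by ring
  have e2 : C * (a * sInt (shear β v t₀ '' K) + c * sInt (shear β v t₁ '' K)) ≤ C * sInt K := by
    rw [e1, hM]
    calc a * (C * sInt (shear β v t₀ '' K)) + c * (C * sInt (shear β v t₁ '' K))
        ≤ a * M + c * M := add_le_add (mul_le_mul_of_nonneg_left hm₀ ha0.le)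
          (mul_le_mul_of_nonneg_left hm₁ hc0.le)
      _ = M := by rw [← add_mul, hac, one_mul]
  have e3 := le_of_mul_le_mul_left e2 hC0
  have hint1 : ∫ x in Set.pi univ (fun _ : Fin (n + 1) => K), h x = 0 := by
    apply le_antisymm _ hint0
    rw [hint]
    linarith
  constructor
  · rw [hint] at hint1
    have e4 : a * (C * sInt (shear β v t₀ '' K)) + c * (C * sInt (shear β v t₁ '' K)) = M := by
      rw [← e1, ← hM]
      congr 1
      linarith
    apply le_antisymm hm₀
    by_contra hlt
    rw [not_le] at hlt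
    have e5 := mul_lt_mul_of_pos_left hlt ha0
    have e6 := mul_le_mul_of_nonneg_left hm₁ hc0.le
    have e7 : a * M + c * M = M := by rw [← add_mul, hac, one_mul]
    linarith
  · intro x hx hx0
    have h2 := (setIntegral_eq_zero_iff_of_nonneg_ae (Eventually.of_forall hh0)
      (int_on hK hhc)).1 hint1
    have h3 : EqOn h 0 (Set.pi univ (fun _ : Fin (n + 1) => K)) := by
      refine Measure.eqOn_of_ae_eq h2 hhc.continuousOn continuousOn_const ?_
      rw [interior_pi_set finite_univ, closure_pi_set]
      refine Set.pi_mono fun _ _ => ?_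
      rw [hKv.closure_interior_eq_closure_of_nonempty_interior hi]
      exact subset_closure
    have h4 := h3 (show x ∈ Set.pi univ (fun _ : Fin (n + 1) => K) from fun i _ => hx i)
    simp only [hh, hx0, Pi.zero_apply] at h4
    have h5 : 0 ≤ volume.real (convexHull ℝ (range fun i => x i + (t₁ * β (x i)) • v)) :=
      measureReal_nonneg
    have h6 : 0 ≤ volume.real (convexHull ℝ (range fun i => x i + (t₀ * β (x i)) • v)) :=
      measureReal_nonneg
    have h7 := mul_nonneg hc0.le h5
    have h8 := mul_nonneg ha0.le h6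
    have h9 : a * volume.real (convexHull ℝ (range fun i => x i + (t₀ * β (x i)) • v)) = 0 := by
      linarith
    exact (mul_eq_zero.1 h9).resolve_left ha0.ne'

lemma vol_zero_iff (x : Fin (n + 1) → E n) :
    volume.real (convexHull ℝ (range x)) = 0 ↔ LinearMap.det (smap x) = 0 := by
  rw [vol_eq]
  have h : 0 < volume.real (simplex n) :=
    ENNReal.toReal_pos (((isOpen_interior.measure_pos volume (simplex_interior n)).trans_le
      (measure_mono interior_subset)).ne') (simplex_compact n).measure_lt_top.ne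
  rw [mul_eq_zero, abs_eq_zero]
  constructor
  · rintro (h1 | h1)
    · exact h1
    · exact absurd h1 h.ne'
  · exact Or.inl

/-- enumerations -/
lemma enum {m : ℕ} (V : Finset (E n)) (hcard : V.card ≤ m) (hne : V.Nonempty) :
    ∃ w : Fin m → E n, range w = (V : Set (E n)) := by
  obtain ⟨v₀, hv₀⟩ := hne
  have e := V.equivFin
  refine ⟨fun i => if h : (i : ℕ) < V.card then (e.symm ⟨i, h⟩ : V) else v₀, ?_⟩
  ext x
  constructor
  · rintro ⟨i, rfl⟩
    dsimp only
    split_ifs with h
    · exact Subtype.coe_prop _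
    · exact hv₀
  · intro hx
    refine ⟨⟨e ⟨x, hx⟩, lt_of_lt_of_le (Fin.is_lt _) hcard⟩, ?_⟩
    dsimp only
    rw [dif_pos (Fin.is_lt _)]
    simp

lemma smap_single (s : Fin (n + 1) → E n) (i : Fin n) :
    smap s (EuclideanSpace.single i 1) = s i.succ - s 0 := by
  simp only [smap_apply, PiLp.single_apply, ite_smul, one_smul, zero_smul]
  simp

/-- a set with interior points spans -/
lemma span_of_interior {K : Set (E n)} (hi : (interior K).Nonempty) (m : E n)
    {U : Submodule ℝ (E n)} (h : ∀ x ∈ K, x - m ∈ U) : U = ⊤ := by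
  rw [eq_top_iff]
  intro y _
  obtain ⟨x, hx⟩ := hi
  rw [mem_interior_iff_mem_nhds] at hx
  have h1 : Tendsto (fun ε : ℝ => x + ε • y) (𝓝 0) (𝓝 x) := by
    have : Continuous fun ε : ℝ => x + ε • y := by fun_prop
    have h2 := this.tendsto 0
    simpa using h2
  have h2 := h1.eventually hx
  have h3 : ∀ᶠ ε : ℝ in 𝓝[≠] 0, x + ε • y ∈ K := h2.filter_mono nhdsWithin_le_nhds
  obtain ⟨ε, hε, hε0⟩ := (h3.and self_mem_nhdsWithin).exists
  have hx' : x ∈ K := mem_of_mem_nhds hx
  have hε0' : ε ≠ 0 := hε0
  have h4 := U.smul_mem ε⁻¹ (U.sub_mem (h _ hε) (h _ hx'))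
  have h5 : ε⁻¹ • (x + ε • y - m - (x - m)) = y := by
    rw [show x + ε • y - m - (x - m) = ε • y by abel, smul_smul, inv_mul_cancel₀ hε0', one_smul]
  rwa [h5] at h4

/-- if degenerate simplices stay degenerate, the speed is an affine function -/
theorem affine_of_eq {K : Set (E n)} (hi : (interior K).Nonempty) (hKv : Convex ℝ K)
    {β : E n → ℝ} {v : E n} (hv : v ≠ 0) (hinv : ∀ (x : E n) (s : ℝ), β (x + s • v) = β x)
    {t₀ : ℝ} (ht : t₀ ≠ 0)
    (h : ∀ x : Fin (n + 1) → E n, (∀ i, x i ∈ K) →
      volume.real (convexHull ℝ (range x)) = 0 →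
      volume.real (convexHull ℝ (range fun i => x i + (t₀ * β (x i)) • v)) = 0)
    {z w : E n} (hz : z ∈ K) (hw : w ∈ K) {a b : ℝ} (ha : 0 ≤ a) (hb : 0 ≤ b) (hab : a + b = 1) :
    β (a • z + b • w) = a * β z + b * β w := by
  classical
  by_contra hne
  set m : E n := a • z + b • w with hm
  set u : E n := z - w with hu
  have hmK : m ∈ K := hKv hz hw ha hb hab
  have hzm : z - m = b • u := by
    rw [hm, hu]
    have : z = (a + b) • z := by rw [hab, one_smul]
    calc z - (a • z + b • w) = (a + b) • z - (a • z + b • w) := by rw [← this]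
      _ = b • (z - w) := by module
  have hwm : w - m = -(a • u) := by
    rw [hm, hu]
    have : w = (a + b) • w := by rw [hab, one_smul]
    calc w - (a • z + b • w) = (a + b) • w - (a • z + b • w) := by rw [← this]
      _ = -(a • (z - w)) := by module
  have huv : u ∉ Submodule.span ℝ ({v} : Set (E n)) := by
    intro hmem
    obtain ⟨s, hs⟩ := Submodule.mem_span_singleton.1 hmem
    have e1 : z = w + s • v := by rw [hs, hu]; abel
    have e2 : m = w + (a * s) • v := by
      rw [hm, e1]
      have : w = (a + b) • w := by rw [hab, one_smul]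
      calc a • (w + s • v) + b • w = (a + b) • w + (a * s) • v := by module
        _ = w + (a * s) • v := by rw [← this]
    apply hne
    rw [e2, hinv]
    conv_rhs => rw [e1, hinv]
    rw [← add_mul, hab, one_mul]
  have hu0 : u ≠ 0 := by
    rintro h0
    apply huv
    rw [h0]
    exact Submodule.zero_mem _
  have hzw : z ≠ w := fun h' => hu0 (by rw [hu, h', sub_self])
  have hli1 : LinearIndepOn ℝ id ({v} : Set (E n)) := by simpa using hv
  have hli : LinearIndepOn ℝ id (insert u {v} : Set (E n)) := hli1.id_insert huv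
  have huv' : u ≠ v := by
    rintro h0
    apply huv
    rw [h0]
    exact Submodule.mem_span_singleton_self v
  set T : Set (E n) := insert u {v} ∪ (fun x => x - m) '' K with hT
  obtain ⟨B, hBT, hsB, hTB, hB⟩ := exists_linearIndepOn_id_extension hli
    (t := T) subset_union_left
  have hBfin : B.Finite := by
    have := hB.linearIndependent.finite
    exact Set.toFinite B
  set B' : Finset (E n) := hBfin.toFinset with hB'
  have hB'c : (B' : Set (E n)) = B := by rw [hB', Set.Finite.coe_toFinset]
  have hcard : B'.card ≤ n := by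
    have h1 : LinearIndependent ℝ (fun x : B' => (x : E n)) := by
      have h2 : LinearIndepOn ℝ id (B' : Set (E n)) := by rw [hB'c]; exact hB
      exact h2.linearIndependent
    have h3 := h1.finset_card_le_finrank
    rwa [finrank_euclideanSpace_fin] at h3
  have huB : u ∈ B' := by
    rw [← Finset.mem_coe, hB'c]; exact hsB (Set.mem_insert _ _)
  have hvB : v ∈ B' := by
    rw [← Finset.mem_coe, hB'c]; exact hsB (Set.mem_insert_of_mem _ rfl)
  set X : Finset (E n) := ((B'.erase u).erase v).image (fun y => y + m) with hX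
  have hXcard : X.card + 2 ≤ n := by
    have h1 : X.card ≤ ((B'.erase u).erase v).card := Finset.card_image_le
    have h2 : ((B'.erase u).erase v).card = (B'.erase u).card - 1 :=
      Finset.card_erase_of_mem (Finset.mem_erase.2 ⟨huv'.symm, hvB⟩)
    have h3 : (B'.erase u).card = B'.card - 1 := Finset.card_erase_of_mem huB
    have h4 : 2 ≤ B'.card := by
      have h5 : ({u, v} : Finset (E n)) ⊆ B' := by
        intro y hy
        rcases Finset.mem_insert.1 hy with h6 | h6
        · rw [h6]; exact huB
        · rw [Finset.mem_singleton.1 h6]; exact hvB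
      have h6 := Finset.card_le_card h5
      rwa [Finset.card_pair huv'] at h6
    omega
  set G : Finset (E n) := insert z (insert w X) with hG
  have hGcard : G.card ≤ n := by
    have h1 := Finset.card_insert_le z (insert w X)
    have h2 := Finset.card_insert_le w X
    rw [hG]
    omega
  have hzG : z ∈ G := Finset.mem_insert_self _ _
  have hwG : w ∈ G := Finset.mem_insert_of_mem (Finset.mem_insert_self _ _)
  have hXG : ∀ y ∈ B', y ≠ u → y ≠ v → y + m ∈ G := by
    intro y hy h1 h2
    refine Finset.mem_insert_of_mem (Finset.mem_insert_of_mem ?_)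
    rw [hX, Finset.mem_image]
    exact ⟨y, Finset.mem_erase.2 ⟨h2, Finset.mem_erase.2 ⟨h1, hy⟩⟩, rfl⟩
  have hGK : ∀ y ∈ G, y ∈ K := by
    intro y hy
    rcases Finset.mem_insert.1 hy with h1 | h1
    · rw [h1]; exact hz
    rcases Finset.mem_insert.1 h1 with h2 | h2
    · rw [h2]; exact hw
    obtain ⟨y', hy', rfl⟩ := Finset.mem_image.1 h2
    have h3 := Finset.mem_erase.1 hy'
    have h4 := Finset.mem_erase.1 h3.2
    have h5 : y' ∈ T := hBT (by rw [← hB'c]; exact h4.2)
    rcases h5 with h6 | ⟨x, hx, hxy⟩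
    · rcases h6 with h7 | h7
      · exact absurd h7 h4.1
      · exact absurd h7 h3.1
    · rw [← hxy]
      dsimp only
      rw [sub_add_cancel]
      exact hx
  obtain ⟨g, hg⟩ := enum G hGcard ⟨z, hzG⟩
  have hgG : ∀ i, g i ∈ G := fun i => by
    rw [← Finset.mem_coe, ← hg]; exact mem_range_self i
  have hgx : ∀ y ∈ G, ∃ i, g i = y := fun y hy => by
    have : y ∈ range g := by rw [hg]; exact hy
    exact this
  set s : Fin (n + 1) → E n := Fin.cons m g with hs
  have hs0 : s 0 = m := rfl
  have hss : ∀ i : Fin n, s i.succ = g i := fun i => rfl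
  have hsK : ∀ i, s i ∈ K := by
    intro i
    refine Fin.cases hmK (fun j => ?_) i
    rw [hss]
    exact hGK _ (hgG j)
  obtain ⟨iz, hiz⟩ := hgx z hzG
  obtain ⟨iw, hiw⟩ := hgx w hwG
  have hizw : iz ≠ iw := by
    rintro h'
    apply hzw
    rw [← hiz, ← hiw, h']
  -- the simplex is degenerate
  have hdet : LinearMap.det (smap s) = 0 := by
    rw [LinearMap.det_eq_zero_iff_ker_ne_bot, Submodule.ne_bot_iff]
    refine ⟨a • EuclideanSpace.single iz 1 + b • EuclideanSpace.single iw 1, ?_, ?_⟩
    · rw [LinearMap.mem_ker, map_add, map_smul, map_smul, smap_single, smap_single, hss, hss,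
        hiz, hiw, hs0, hzm, hwm]
      module
    · intro h0
      have h1 : a = 0 := by
        have := congrArg (fun y : E n => y iz) h0
        simpa [hizw] using this
      have h2 : b = 0 := by
        have := congrArg (fun y : E n => y iw) h0
        simpa [hizw.symm] using this
      rw [h1, h2] at hab
      norm_num at hab
  have h1 := h s hsK ((vol_zero_iff s).2 hdet)
  rw [vol_zero_iff] at h1
  set s' : Fin (n + 1) → E n := fun i => s i + (t₀ * β (s i)) • v with hs'
  -- the moved simplex is not degenerate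
  set U : Submodule ℝ (E n) := LinearMap.range (smap s') with hU
  have hUt : U < ⊤ := LinearMap.range_lt_top_of_det_eq_zero h1
  have hU1 : ∀ x ∈ G, (x - m) + (t₀ * (β x - β m)) • v ∈ U := by
    intro x hx
    obtain ⟨i, hi⟩ := hgx x hx
    refine ⟨EuclideanSpace.single i 1, ?_⟩
    rw [smap_single]
    simp only [hs', hss, hs0, hi]
    module
  have hvU : v ∈ U := by
    have e1 := U.add_mem (U.smul_mem a (hU1 z hzG)) (U.smul_mem b (hU1 w hwG))
    rw [hzm, hwm] at e1
    have e2 : a • (b • u + (t₀ * (β z - β m)) • v) +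
        b • (-(a • u) + (t₀ * (β w - β m)) • v) =
        (t₀ * (a * β z + b * β w - (a + b) * β m)) • v := by module
    rw [e2, hab, one_mul] at e1
    have e3 : t₀ * (a * β z + b * β w - β m) ≠ 0 := by
      refine mul_ne_zero ht (sub_ne_zero.2 ?_)
      exact fun h' => hne h'.symm
    have e4 := U.smul_mem (t₀ * (a * β z + b * β w - β m))⁻¹ e1
    rwa [smul_smul, inv_mul_cancel₀ e3, one_smul] at e4
  have hU2 : ∀ x ∈ G, x - m ∈ U := by
    intro x hx
    have e1 := U.sub_mem (hU1 x hx) (U.smul_mem (t₀ * (β x - β m)) hvU)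
    rwa [add_sub_cancel_right] at e1
  have huU : u ∈ U := by
    have e1 := U.sub_mem (hU2 z hzG) (hU2 w hwG)
    have e2 : z - m - (w - m) = u := by rw [hu]; abel
    rwa [e2] at e1
  have hBU : B ⊆ U := by
    intro y hy
    rw [← hB'c] at hy
    by_cases hyu : y = u
    · rw [hyu]; exact huU
    by_cases hyv : y = v
    · rw [hyv]; exact hvU
    have e1 := hU2 _ (hXG y hy hyu hyv)
    rwa [add_sub_cancel_right] at e1
  have hTU : ∀ x ∈ K, x - m ∈ U := by
    intro x hx
    have e1 : x - m ∈ T := Or.inr ⟨x, hx, rfl⟩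
    exact (Submodule.span_le.2 hBU) (hTB e1)
  exact hUt.ne (span_of_interior hi m hTU)

/-- **equality for reducible polytopes** -/
theorem red_eq {F : Finset (E n)} (h : Red F) :
    (interior (convexHull ℝ (F : Set (E n)))).Nonempty →
      sylv (convexHull ℝ (F : Set (E n))) = sylv (simplex n) →
      ∃ s : Fin (n + 1) → E n, convexHull ℝ (F : Set (E n)) = convexHull ℝ (range s) := by
  induction h with
  | @base F h =>
    intro hint _
    have h1 : Module.finrank ℝ (lsp (F : Set (E n))) ≤ Module.finrank ℝ (E n × ℝ) :=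
      Submodule.finrank_le _
    have h2 : Module.finrank ℝ (E n × ℝ) = n + 1 := by simp
    have hne : F.Nonempty := by
      by_contra h
      rw [Finset.not_nonempty_iff_eq_empty] at h
      rw [h, Finset.coe_empty, convexHull_empty, interior_empty] at hint
      exact not_nonempty_empty hint
    obtain ⟨w, hw⟩ := enum (m := n + 1) F (by omega) hne
    exact ⟨w, by rw [hw]⟩
  | hull h _ ih => rwa [h] at ih
  | @move F F₀ F₁ β hβ a b ha hb hab hinv t₀ t₁ h0 h1 e₀ e₁ hF₀ hF₁ ih₀ ih₁ =>
    intro hint heq
    set K : Set (E n) := convexHull ℝ (F : Set (E n)) with hK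
    have hKv : Convex ℝ K := convex_convexHull ℝ _
    have hc : IsCompact K := Pool.Agent.H73R3.compact_hull F.finite_toSet.isCompact
    have hI : ∀ t : ℝ, (interior (shear β (b - a) t '' K)).Nonempty := by
      intro t
      have h2 : interior (shear β (b - a) t '' K) = shear β (b - a) t '' interior K :=
        ((shearH hβ hinv t).image_interior _).symm
      rw [h2]
      exact hint.image _
    have hI₀ := hI t₀
    have hI₁ := hI t₁
    have hle₀ : sylv (shear β (b - a) t₀ '' K) ≤ sylv (simplex n) := by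
      rw [e₀] at hI₀ ⊢
      exact red_le hF₀ hI₀
    have hle₁ : sylv (shear β (b - a) t₁ '' K) ≤ sylv (simplex n) := by
      rw [e₁] at hI₁ ⊢
      exact red_le hF₁ hI₁
    obtain ⟨hm, hdeg⟩ := move_eq hc hKv hint hβ hab hinv h0 h1 hle₀ hle₁ heq
    have haff := fun {z w : E n} (hz : z ∈ K) (hw : w ∈ K) {c d : ℝ} (hc : 0 ≤ c) (hd : 0 ≤ d)
      (hcd : c + d = 1) => affine_of_eq hint hKv hab hinv h0.ne hdeg hz hw hc hd hcd
    obtain ⟨s, hs⟩ : ∃ s : Fin (n + 1) → E n,
        shear β (b - a) t₀ '' K = convexHull ℝ (range s) := by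
      rw [e₀]
      refine ih₀ ?_ ?_
      · rw [← e₀]; exact hI₀
      · rw [← e₀]; exact hm
    -- the points which move to the vertices
    have hsK : ∀ i, ∃ y ∈ K, shear β (b - a) t₀ y = s i := fun i => by
      have : s i ∈ shear β (b - a) t₀ '' K := by
        rw [hs]; exact subset_convexHull ℝ _ (mem_range_self i)
      exact this
    choose y hyK hys using hsK
    refine ⟨y, Subset.antisymm ?_ ?_⟩
    · have h2 : convexHull ℝ (range s) ⊆ shear β (b - a) t₀ '' (convexHull ℝ (range y)) := by
        refine convexHull_min ?_ ?_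
        · rintro _ ⟨i, rfl⟩
          exact ⟨y i, subset_convexHull ℝ _ (mem_range_self i), hys i⟩
        · rintro _ ⟨p, hp, rfl⟩ _ ⟨q, hq, rfl⟩ c d hc hd hcd
          have hyK' : convexHull ℝ (range y) ⊆ K := by
            refine convexHull_min ?_ hKv
            rintro _ ⟨i, rfl⟩
            exact hyK i
          refine ⟨c • p + d • q, (convex_convexHull ℝ _) hp hq hc hd hcd, ?_⟩
          unfold shear
          rw [haff (hyK' hp) (hyK' hq) hc hd hcd]
          module
      intro x hx
      have h3 : shear β (b - a) t₀ x ∈ shear β (b - a) t₀ '' (convexHull ℝ (range y)) :=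
        h2 (by rw [← hs]; exact ⟨x, hx, rfl⟩)
      exact ((shearH hβ hinv t₀).injective.mem_set_image).1 h3
    · refine convexHull_min ?_ hKv
      rintro _ ⟨i, rfl⟩
      exact hyK i

/-- **equality for the polytopes of the class** -/
theorem main_eq (hF : RedFew n) (hPL : RedPlanar n) {d : ℕ} {F : Finset (E n)}
    (hS : JoinSum n d (F : Set (E n))) (hd : d ≤ n)
    (hK : (interior (convexHull ℝ (F : Set (E n)))).Nonempty)
    (heq : sylv (convexHull ℝ (F : Set (E n))) = sylv (simplex n)) :
    ∃ s : Fin (n + 1) → E n, convexHull ℝ (F : Set (E n)) = convexHull ℝ (range s) := by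
  have hfr : Module.finrank ℝ (lsp (F : Set (E n))) = d + 1 := by
    have h1 := rank_le hS
    have h2 : lsp (F : Set (E n)) = ⊤ := span_top hK
    rw [h2] at h1 ⊢
    have h3 : Module.finrank ℝ (⊤ : Submodule ℝ (E n × ℝ)) = n + 1 := by
      rw [finrank_top]; simp
    omega
  exact red_eq (red_of_joinSum hF hPL hS _ rfl hfr) hK heq

end Pool.Agent.Helper28K1.SY
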