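import Pool.Agent.Helper28K1.SY.D
import Pool.Agent.Helper98.FS.RA
import Pool.Agent.Helper31.FS.RP

/-!
# Sylvester's problem for iterated joins and free sums: polytopes of the class
-/

set_option autoImplicit false

namespace Pool.Agent.Helper28K1.SY

open MeasureTheory Set Filter Topology
open Pool.Agent.Y513.LPM (E)
open Pool.Agent.Helper57K1.LM
open Pool.Agent.Helper57K1.FS

variable {n : ℕ}

/-- the reduction of all polytopes with few vertices and of all polygons -/
theorem red_few' : RedFew n := Pool.Agent.Helper98.FS.red_few

theorem red_planar' : RedPlanar n := Pool.Agent.Helper31.FS.red_planar Pool.Agent.Helper98.FS.red_few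

/-- a polytope of the class is the convex hull of a finite set of the class -/
theorem finite_part {d : ℕ} {S : Set (E n)} (hS : JoinSum n d S) {G : Finset (E n)}
    (hG : convexHull ℝ S = convexHull ℝ (G : Set (E n))) :
    ∃ F : Finset (E n), JoinSum n d (F : Set (E n)) ∧
      convexHull ℝ (F : Set (E n)) = convexHull ℝ S := by
  classical
  obtain ⟨hc, t, ht, hcore⟩ := joinSum_core hS
  have hKc : IsCompact (convexHull ℝ S) := Pool.Agent.H73R3.compact_hull hc
  have h1 : (convexHull ℝ S).extremePoints ℝ ⊆ S := extremePoints_convexHull_subset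
  have h2 : (convexHull ℝ S).extremePoints ℝ ⊆ (G : Set (E n)) := by
    rw [hG]; exact extremePoints_convexHull_subset
  have hfin : ((convexHull ℝ S).extremePoints ℝ).Finite := G.finite_toSet.subset h2
  have h3 : convexHull ℝ ((convexHull ℝ S).extremePoints ℝ) = convexHull ℝ S := by
    have h4 := closure_convexHull_extremePoints hKc (convex_convexHull ℝ S)
    rwa [(hfin.isClosed_convexHull ℝ).closure_eq] at h4
  refine ⟨t ∪ hfin.toFinset, hcore _ Finset.subset_union_left ?_, ?_⟩
  · rw [Finset.coe_union, Set.Finite.coe_toFinset]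
    exact union_subset ht h1
  · rw [Finset.coe_union, Set.Finite.coe_toFinset]
    apply Subset.antisymm
    · exact convexHull_mono (union_subset ht h1)
    · conv_lhs => rw [← h3]
      exact convexHull_mono subset_union_right

/-- **the inequality** -/
theorem sylv_le {d : ℕ} {S : Set (E n)} (hS : JoinSum n d S) (hd : d ≤ n)
    (hK : (interior (convexHull ℝ S)).Nonempty) :
    sylv (convexHull ℝ S) ≤ sylv (simplex n) :=
  main red_few' red_planar' hS hd hK

/-- **equality for polytopes** -/
theorem sylv_eq_iff {d : ℕ} {S : Set (E n)} (hS : JoinSum n d S) (hd : d ≤ n)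
    (hK : (interior (convexHull ℝ S)).Nonempty) {G : Finset (E n)}
    (hG : convexHull ℝ S = convexHull ℝ (G : Set (E n))) :
    sylv (convexHull ℝ S) = sylv (simplex n) ↔
      ∃ s : Fin (n + 1) → E n, convexHull ℝ S = convexHull ℝ (range s) := by
  constructor
  · intro h
    obtain ⟨F, hF, hFS⟩ := finite_part hS hG
    rw [← hFS] at hK h ⊢
    exact main_eq red_few' red_planar' hF hd hK h
  · rintro ⟨s, hs⟩
    rw [hs] at hK ⊢
    exact simplex_value hK

end Pool.Agent.Helper28K1.SY
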